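import Pool.Agent.Helper55.XA.Sp2

/-!
The directions span the tangent space: type 2 (project XN, MP_9410e4).
-/

namespace Pool.Agent.Helper55.H2

open Pool.Agent.Helper24.HN
open Pool.Agent.Helper28.HN (Un aff)
open Pool.Agent.Helper24.H2

variable {p : ℕ} [Fact p.Prime]

/-- The directions at the zeros near the reference configuration span the tangent space. -/
theorem span_of_Vm {m : ℕ} (c : Ix m → ℤ_[p]) (k : Un m → ℤ_[p]) (hP : IsUnit (Vm c k).det)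
    (L : Loc p (m + 1)) (hxi : ∀ x z, L.xi x z = vh c (yh c (aff x) z))
    (x1 : V p (m + 1)) (ζ : Fin (m + 2) → ℤ_[p])
    (h1 : ‖x1 - fun i => k (.inl i)‖ ≤ (p : ℝ) ^ (-2 : ℤ))
    (hz : ∀ a, a ≠ 0 → ‖ζ a - k (.inr a)‖ ≤ (p : ℝ) ^ (-2 : ℤ)) :
    ⊤ ≤ Submodule.span ℚ_[p] ((lin L x1 ζ).v '' {a | a ≠ 0}) :=
  XA.span_of_Vm2 c k hP (fun _ => 1) isUnit_one L
    (fun x z => by rw [hxi]; funext i; rw [one_mul]) x1 ζ h1 hz

end Pool.Agent.Helper55.H2
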